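import Pool.Agent.Q294.ExclREFinal

/-!
# MP_39c14e: exclusion in a ballistic random environment can mix in almost quadratic time

For the i.i.d. environment in which a site is `9/10` with probability `31/32` and `n² / 2^(n+2)` with
probability `2^(-n) / 32` (`n ≥ 1`), which is ballistic (`E[(1-ω)/ω] ≤ 1/2`), a segment of length
`N` contains in its second quarter a site whose jump rate to the right is about
`(log N)^3 / N`. With `N/4` particles the reversible law has its particles in the last quarter, up
to an exponentially small expected number, so all particles have to pass this bottleneck, which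
takes time of order `N² / (log N)^3`.
-/

open MeasureTheory Filter Topology
open scoped ENNReal

namespace Pool.Agent.Results.MP_39c14e_pr.NearQuadratic

open Q294.ExclRE

/-- Q1 is false. More precisely, there is a law of the environment carried by `(0, 1)` with
`E[(1-ω)/ω] ≤ 1/2` such that for `k = max(1, ⌊N/4⌋)` particles the probability that the mixing time
is at most `N² / (50 (log N)³)` tends to zero. (For environments with values in `(0, 1)` a
stationary distribution exists.) -/
theorem result :
    ¬ Q1 ∧
    (∃ μ : Measure ℝ, IsProbabilityMeasure μ ∧ μ (Set.Ioo 0 1)ᶜ = 0 ∧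
      ∫⁻ x, rho x ∂μ ≤ ENNReal.ofReal (1 / 2) ∧
      Tendsto (fun N : ℕ => Measure.pi (fun _ : Fin N => μ)
        {ω | ∃ π : Config N (max 1 (N / 4)) → ℝ, IsStationary ω π ∧
          mixTime ω π ≤ ENNReal.ofReal ((N : ℝ) ^ 2 / (50 * (Real.log N) ^ 3))}) atTop (𝓝 0)) ∧
    (∀ N k : ℕ, k ≤ N → ∀ ω : Fin N → ℝ, (∀ i, 0 < ω i ∧ ω i < 1) →
      ∃ π : Config N k → ℝ, IsStationary ω π) :=
  ⟨not_Q1, ⟨mu, inferInstance, mu_supp, lintegral_mu_rho, main⟩,
    fun _ _ hk _ hω => ⟨_, isStationary_pi0 hω hk⟩⟩

end Pool.Agent.Results.MP_39c14e_pr.NearQuadratic
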